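import Pool.Agent.H25.TG.NSG

/-!
Symplectic torus actions commuting with a unipotent one-parameter group (MP_51eb24_ag):
row KAP of the board `tga_modules`.
-/

set_option autoImplicit false
set_option linter.unusedSectionVars false

namespace Pool.Agent.H25.TG

open MvPolynomial Pool.Agent.H2.ST Pool.Agent.H15.TG

/-- last iterates modulo sigma -/
theorem pf_KAP (hNSG : T_NSG) : T_KAP := by
  intro k _ _ _ m d W K H f π σ q y ψ l h χ g hgK hgW hl hsg
  classical
  have h1 := mem_Cf.1 h.hσ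
  -- the first index
  have hex : ∃ a : ℕ, σ ∣ (br f)^[a] g := by
    obtain ⟨n, hn⟩ := h.fl g hgK
    exact ⟨n, by rw [hn]; exact dvd_zero _⟩
  obtain ⟨a, ha⟩ : ∃ a : ℕ, Nat.find hex = a + 1 := by
    refine Nat.exists_eq_succ_of_ne_zero fun h0 => ?_
    have := Nat.find_spec hex
    rw [h0] at this
    exact hsg this
  have ha1 : ¬ σ ∣ (br f)^[a] g := Nat.find_min hex (by omega)
  have ha2 : σ ∣ br f ((br f)^[a] g) := by
    have := Nat.find_spec hex
    rw [ha, Function.iterate_succ_apply'] at this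
    exact this
  have hit : ∀ a : ℕ, (br f)^[a] g ∈ K ∧ (br f)^[a] g ∈ W χ := by
    intro a
    induction a with
    | zero => exact ⟨hgK, hgW⟩
    | succ a ih =>
      rw [Function.iterate_succ_apply']
      refine ⟨h.bk f h.fK _ ih.1, ?_⟩
      have := h.pbr _ _ _ _ h.f0 ih.2
      rwa [zero_add] at this
  obtain ⟨hK1, hW1⟩ := hit a
  generalize (br f)^[a] g = g1 at ha1 ha2 hK1 hW1
  -- the second index
  have hex2 : ∃ b : ℕ, σ ∣ (br σ)^[b] g1 := by
    obtain ⟨n, hn⟩ := hNSG k m d W K H f π σ q y ψ l h g1 hK1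
    exact ⟨n, by rw [hn]; exact dvd_zero _⟩
  obtain ⟨b, hb⟩ : ∃ b : ℕ, Nat.find hex2 = b + 1 := by
    refine Nat.exists_eq_succ_of_ne_zero fun h0 => ?_
    have := Nat.find_spec hex2
    rw [h0] at this
    exact ha1 this
  have hb1 : ¬ σ ∣ (br σ)^[b] g1 := Nat.find_min hex2 (by omega)
  have hb2 : σ ∣ br σ ((br σ)^[b] g1) := by
    have := Nat.find_spec hex2
    rw [hb, Function.iterate_succ_apply'] at this
    exact this
  have hit2 : ∀ b : ℕ, (br σ)^[b] g1 ∈ K := by
    intro b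
    induction b with
    | zero => exact hK1
    | succ b ih =>
      rw [Function.iterate_succ_apply']
      exact h.bk σ h1.1 _ ih
  have hit3 : ∀ b : ℕ, σ ∣ br f ((br σ)^[b] g1) := by
    intro b
    induction b with
    | zero => exact ha2
    | succ b ih =>
      rw [Function.iterate_succ_apply', jac, h1.2, zero_br, zero_add]
      obtain ⟨t, ht⟩ := ih
      rw [ht, br_mul, br_self, mul_zero, add_zero]
      exact dvd_mul_right _ _
  have hit4 : ∀ b : ℕ, (br σ)^[b] g1 ≠ 0 → ∃ χ' : Fin d → ℤ, (br σ)^[b] g1 ∈ W χ' ∧ l χ' < 0 := by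
    intro b
    induction b with
    | zero => exact fun _ => ⟨χ, hW1, hl⟩
    | succ b ih =>
      intro hne
      rw [Function.iterate_succ_apply'] at hne ⊢
      have hne' : (br σ)^[b] g1 ≠ 0 := by
        intro h0
        rw [h0, br_zero] at hne
        exact hne rfl
      obtain ⟨χ', hw, hl'⟩ := ih hne'
      refine ⟨-ψ + χ', br_sig_wt h hw, ?_⟩
      rw [l_sub h ⟨_, hit2 b, hw, hne'⟩]
      omega
  have hne : (br σ)^[b] g1 ≠ 0 := by
    intro h0
    rw [h0] at hb1
    exact hb1 (dvd_zero _)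
  obtain ⟨χ', hw, hl'⟩ := hit4 b hne
  exact ⟨χ', _, hit2 b, hw, hl', hb1, hit3 b, hb2⟩

end Pool.Agent.H25.TG
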