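import Pool.Agent.H15.TG.Targets

/-!
Symplectic torus actions commuting with a unipotent one-parameter group (MP_51eb24_ag):
row NSG of the board `tga_modules`.
-/

set_option autoImplicit false
set_option linter.unusedSectionVars false

namespace Pool.Agent.H25.TG

open MvPolynomial Pool.Agent.H2.ST Pool.Agent.H15.TG

section basic

variable {k : Type} [Field k] {m : ℕ}

theorem iter_zero (s : Pol k m) (n : ℕ) : (br s)^[n] 0 = 0 := by
  induction n with
  | zero => rfl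
  | succ n ih => rw [Function.iterate_succ_apply, br_zero, ih]

theorem iter_add (s : Pol k m) (n : ℕ) (a b : Pol k m) :
    (br s)^[n] (a + b) = (br s)^[n] a + (br s)^[n] b := by
  induction n generalizing a b with
  | zero => rfl
  | succ n ih =>
    rw [Function.iterate_succ_apply, Function.iterate_succ_apply, Function.iterate_succ_apply,
      br_add, ih]

theorem iter_self_mul (s : Pol k m) (n : ℕ) (a : Pol k m) :
    (br s)^[n] (s * a) = s * (br s)^[n] a := by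
  induction n generalizing a with
  | zero => rfl
  | succ n ih =>
    rw [Function.iterate_succ_apply, Function.iterate_succ_apply, br_mul, br_self, mul_zero,
      add_zero, ih]

theorem iter_le (s : Pol k m) (n N : ℕ) (h : n ≤ N) (a : Pol k m) (ha : (br s)^[n] a = 0) :
    (br s)^[N] a = 0 := by
  obtain ⟨r, rfl⟩ := Nat.exists_eq_add_of_le h
  rw [Nat.add_comm, Function.iterate_add_apply, ha, iter_zero]

theorem nil_add (s : Pol k m) (a b : Pol k m) (ha : ∃ n : ℕ, (br s)^[n] a = 0)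
    (hb : ∃ n : ℕ, (br s)^[n] b = 0) : ∃ n : ℕ, (br s)^[n] (a + b) = 0 := by
  obtain ⟨n, hn⟩ := ha
  obtain ⟨n', hn'⟩ := hb
  refine ⟨max n n', ?_⟩
  rw [iter_add, iter_le s n _ (le_max_left _ _) a hn, iter_le s n' _ (le_max_right _ _) b hn',
    add_zero]

theorem nil_sum (s : Pol k m) {ι : Type} (t : Finset ι) (F : ι → Pol k m)
    (h : ∀ i ∈ t, ∃ n : ℕ, (br s)^[n] (F i) = 0) : ∃ n : ℕ, (br s)^[n] (∑ i ∈ t, F i) = 0 := by
  classical
  induction t using Finset.induction_on with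
  | empty => exact ⟨0, by rw [Finset.sum_empty]; rfl⟩
  | insert a t ha ih =>
    rw [Finset.sum_insert ha]
    exact nil_add s _ _ (h a (Finset.mem_insert_self _ _))
      (ih fun i hi => h i (Finset.mem_insert_of_mem hi))

/-- a cofactor of a homogeneous element is homogeneous -/
theorem mem_of_mul_mem {Γ : Type} [AddCommGroup Γ] {W : Γ → Submodule k (Pol k m)} (h : Gr W)
    {a b : Γ} {s g : Pol k m} (hs : s ∈ W a) (hs0 : s ≠ 0) (hg : s * g ∈ W (a + b)) :
    g ∈ W b := by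
  classical
  refine mem_of_cmp h fun c hc => ?_
  have h1 := cmp_mul_of_mem h hs g c
  rw [mul_comm g s, cmp_of_mem h hg, Finsupp.single_apply, if_neg] at h1
  · exact (mul_eq_zero.1 h1.symm).resolve_right hs0
  · intro h2
    rw [add_comm a b] at h2
    exact hc (add_right_cancel h2).symm

end basic

section tw

variable {k : Type} [Field k] [IsAlgClosed k] [CharZero k] {m d : ℕ}
  {W : (Fin d → ℤ) → Submodule k (Pol k m)} {K : Subalgebra k (Pol k m)}
  {H : Fin d → Pol k m} {f π σ q : Pol k m} {y : Fin d → Pol k m} {ψ : Fin d → ℤ}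
  {l : (Fin d → ℤ) → ℤ}

theorem l_zero (h : Tw W K H f π σ q y ψ l) : l 0 = 0 := by
  have h1 : Oc W K 0 := ⟨1, K.one_mem, h.one, one_ne_zero⟩
  have h2 := h.la 0 0 h1 h1
  rw [add_zero] at h2
  omega

theorem oc_psi (h : Tw W K H f π σ q y ψ l) : Oc W K ψ :=
  ⟨π, (mem_Cf.1 h.hp).1, h.wp, h.pp.ne_zero⟩

theorem oc_neg (h : Tw W K H f π σ q y ψ l) : Oc W K (-ψ) :=
  ⟨σ, (mem_Cf.1 h.hσ).1, h.wσ, h.pσ.ne_zero⟩

theorem l_neg (h : Tw W K H f π σ q y ψ l) : l (-ψ) = -1 := by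
  have h1 := h.la ψ (-ψ) (oc_psi h) (oc_neg h)
  rw [add_neg_cancel, l_zero h, h.l1] at h1
  omega

theorem br_sig_mem (h : Tw W K H f π σ q y ψ l) {g : Pol k m} (hg : g ∈ Cf K f) :
    br σ g ∈ Cf K f := by
  have h1 := mem_Cf.1 h.hσ
  have h2 := mem_Cf.1 hg
  refine mem_Cf.2 ⟨h.bk σ h1.1 g h2.1, ?_⟩
  rw [jac, h1.2, zero_br, h2.2, br_zero, add_zero]

theorem br_sig_wt (h : Tw W K H f π σ q y ψ l) {g : Pol k m} {χ : Fin d → ℤ} (hg : g ∈ W χ) :
    br σ g ∈ W (-ψ + χ) := h.pbr _ _ _ _ h.wσ hg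

theorem l_sub (h : Tw W K H f π σ q y ψ l) {χ : Fin d → ℤ} (ho : Oc W K χ) :
    l (-ψ + χ) = l χ - 1 := by
  rw [h.la _ _ (oc_neg h) ho, l_neg h]
  ring

theorem nil_zero (hCFC : T_CFC) (h : Tw W K H f π σ q y ψ l) (χ : Fin d → ℤ) (hχ : l χ = 0)
    (N : ℕ) : ∀ g : Pol k m, g.totalDegree < N → g ∈ Cf K f → g ∈ W χ →
    ∃ n : ℕ, (br σ)^[n] g = 0 := by
  induction N with
  | zero => intro g hg; exact absurd hg (Nat.not_lt_zero _)
  | succ N ih =>
    intro g hN hg hw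
    by_cases hb : br σ g = 0
    · exact ⟨1, hb⟩
    have hg0 : g ≠ 0 := by rintro rfl; exact hb (br_zero σ)
    have ho : Oc W K χ := ⟨g, (mem_Cf.1 hg).1, hw, hg0⟩
    have h1 := br_sig_mem h hg
    have h2 := br_sig_wt h hw
    obtain ⟨g', hg'⟩ := h.ln _ _ h1 h2 (by rw [l_sub h ho, hχ]; norm_num)
    have hg'0 : g' ≠ 0 := by
      rintro rfl
      rw [mul_zero] at hg'
      exact hb hg'
    have h3 : g' ∈ Cf K f := by
      refine (hCFC k m d W K H f h.toFd σ g' ?_ ?_).2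
      · rw [← hg']; exact hb
      · rw [← hg']; exact h1
    have h4 : g' ∈ W χ := by
      refine mem_of_mul_mem h.toGr h.wσ h.pσ.ne_zero ?_
      rw [← hg']; exact h2
    have h5 := deg_br σ g hb
    rw [hg', totalDegree_mul_of_isDomain h.pσ.ne_zero hg'0] at h5
    obtain ⟨n, hn⟩ := ih g' (by omega) h3 h4
    refine ⟨n + 1, ?_⟩
    rw [Function.iterate_succ_apply, hg', iter_self_mul, hn, mul_zero]

theorem nil_neg (hCFC : T_CFC) (h : Tw W K H f π σ q y ψ l) (r : ℕ) :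
    ∀ (χ : Fin d → ℤ) (g : Pol k m), l χ = -(r : ℤ) → g ∈ Cf K f → g ∈ W χ →
    ∃ n : ℕ, (br σ)^[n] g = 0 := by
  induction r with
  | zero =>
    intro χ g hl hg hw
    exact nil_zero hCFC h χ (by simpa using hl) (g.totalDegree + 1) g (Nat.lt_succ_self _) hg hw
  | succ r ih =>
    intro χ g hl hg hw
    by_cases hg0 : g = 0
    · exact ⟨0, hg0⟩
    have ho : Oc W K χ := ⟨g, (mem_Cf.1 hg).1, hw, hg0⟩
    obtain ⟨g', hg'⟩ := h.ln _ _ hg hw (by rw [hl]; push_cast; linarith [Int.natCast_nonneg r])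
    have h3 : g' ∈ Cf K f := by
      refine (hCFC k m d W K H f h.toFd σ g' ?_ ?_).2
      · rw [← hg']; exact hg0
      · rw [← hg']; exact hg
    have h4 : g' ∈ W (ψ + χ) := by
      refine mem_of_mul_mem h.toGr h.wσ h.pσ.ne_zero ?_
      rw [← hg', neg_add_cancel_left]; exact hw
    obtain ⟨n, hn⟩ := ih (ψ + χ) g' (by
      rw [h.la _ _ (oc_psi h) ho, h.l1, hl]; push_cast; ring) h3 h4
    exact ⟨n, by rw [hg', iter_self_mul, hn, mul_zero]⟩

theorem nil_pos (hCFC : T_CFC) (h : Tw W K H f π σ q y ψ l) (r : ℕ) :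
    ∀ (χ : Fin d → ℤ) (g : Pol k m), l χ = (r : ℤ) → g ∈ Cf K f → g ∈ W χ →
    ∃ n : ℕ, (br σ)^[n] g = 0 := by
  induction r with
  | zero =>
    intro χ g hl hg hw
    exact nil_zero hCFC h χ (by simpa using hl) (g.totalDegree + 1) g (Nat.lt_succ_self _) hg hw
  | succ r ih =>
    intro χ g hl hg hw
    by_cases hg0 : g = 0
    · exact ⟨0, hg0⟩
    have ho : Oc W K χ := ⟨g, (mem_Cf.1 hg).1, hw, hg0⟩
    obtain ⟨n, hn⟩ := ih (-ψ + χ) (br σ g) (by rw [l_sub h ho, hl]; push_cast; ring)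
      (br_sig_mem h hg) (br_sig_wt h hw)
    exact ⟨n + 1, by rw [Function.iterate_succ_apply, hn]⟩

theorem nil_hom (hCFC : T_CFC) (h : Tw W K H f π σ q y ψ l) (χ : Fin d → ℤ) (g : Pol k m)
    (hg : g ∈ Cf K f) (hw : g ∈ W χ) : ∃ n : ℕ, (br σ)^[n] g = 0 := by
  rcases le_total 0 (l χ) with hl | hl
  · exact nil_pos hCFC h (l χ).toNat χ g (by rw [Int.toNat_of_nonneg hl]) hg hw
  · exact nil_neg hCFC h (-(l χ)).toNat χ g (by
      rw [Int.toNat_of_nonneg (by omega), neg_neg]) hg hw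

end tw

/-- the bracket with sigma is locally nilpotent -/
theorem pf_NSG (hEXT : T_EXT) (hCGR : T_CGR) (hCFC : T_CFC) (_hFAC : T_FAC) : T_NSG := by
  intro k _ _ _ m d W K H f π σ q y ψ l h
  have h1 := mem_Cf.1 h.hσ
  refine hEXT k m K f σ (h.bk f h.fK) (h.bk σ h1.1) h1.2 h.fl ?_
  intro x hx
  have hc := hCGR k m d W K H f h.toFd x hx
  have h2 : ∃ n : ℕ, (br σ)^[n] (∑ χ ∈ (cmp h.toGr x).support, cmp h.toGr x χ) = 0 := by
    refine nil_sum σ _ _ fun χ _ => ?_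
    exact nil_hom hCFC h χ _ (hc χ).1 (hc χ).2
  have h3 := cmp_sum h.toGr x
  rw [Finsupp.sum] at h3
  rw [h3] at h2
  exact h2

end Pool.Agent.H25.TG
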