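import Pool.Agent.H15.TG.Targets

/-!
Symplectic torus actions commuting with a unipotent one-parameter group (MP_51eb24_ag):
row ZZR of the board `tga_modules`.
-/

set_option autoImplicit false

namespace Pool.Agent.H25.TG

open MvPolynomial Pool.Agent.H2.ST Pool.Agent.H15.TG

section ideals

variable {A : Type} [CommRing A] (I : Ideal A)

theorem pw_mem (r n : ℕ) (a : A) (ha : a ∈ I ^ r) : a ^ n ∈ I ^ (r * n) := by
  rw [pow_mul]
  exact Ideal.pow_mem_pow ha n

theorem mul_mem_pw {u v w : ℕ} {a b : A} (ha : a ∈ I ^ u) (hb : b ∈ I ^ v) (h : w ≤ u + v) :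
    a * b ∈ I ^ w := by
  have h1 := Ideal.mul_mem_mul ha hb
  rw [← pow_add] at h1
  exact Ideal.pow_le_pow_right h h1

theorem prod_pw_mem {ι : Type} (s : Finset ι) (a : ι → A) (n : ι → ℕ) (r : ℕ)
    (ha : ∀ i, a i ∈ I ^ r) : ∏ i ∈ s, a i ^ n i ∈ I ^ (r * ∑ i ∈ s, n i) := by
  classical
  induction s using Finset.induction_on with
  | empty => rw [Finset.prod_empty, Finset.sum_empty, mul_zero, pow_zero, Ideal.one_eq_top]; trivial
  | insert i s hi ih =>
    rw [Finset.prod_insert hi, Finset.sum_insert hi]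
    exact mul_mem_pw I (pw_mem I r (n i) _ (ha i)) ih (by rw [mul_add])

theorem pw_sub_mem (n : ℕ) (a b : A) (ha : a ∈ I ^ 2) (hb : b ∈ I ^ 2) (hab : a - b ∈ I ^ 3) :
    a ^ n - b ^ n ∈ I ^ (2 * n + 1) := by
  induction n with
  | zero => rw [pow_zero, pow_zero, sub_self]; exact Ideal.zero_mem _
  | succ n ih =>
    have h1 : a ^ (n + 1) - b ^ (n + 1) = a ^ n * (a - b) + (a ^ n - b ^ n) * b := by ring
    rw [h1]
    exact Ideal.add_mem _ (mul_mem_pw I (pw_mem I 2 n _ ha) hab (by omega))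
      (mul_mem_pw I ih hb (by omega))

theorem prod_sub_mem {ι : Type} (s : Finset ι) (a b : ι → A) (n : ι → ℕ)
    (ha : ∀ i, a i ∈ I ^ 2) (hb : ∀ i, b i ∈ I ^ 2) (hab : ∀ i, a i - b i ∈ I ^ 3) :
    ∏ i ∈ s, a i ^ n i - ∏ i ∈ s, b i ^ n i ∈ I ^ (2 * ∑ i ∈ s, n i + 1) := by
  classical
  induction s using Finset.induction_on with
  | empty => rw [Finset.prod_empty, Finset.prod_empty, sub_self]; exact Ideal.zero_mem _
  | insert i s hi ih =>
    rw [Finset.prod_insert hi, Finset.prod_insert hi, Finset.sum_insert hi]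
    have h1 : a i ^ n i * ∏ j ∈ s, a j ^ n j - b i ^ n i * ∏ j ∈ s, b j ^ n j =
        a i ^ n i * (∏ j ∈ s, a j ^ n j - ∏ j ∈ s, b j ^ n j) +
          (a i ^ n i - b i ^ n i) * ∏ j ∈ s, b j ^ n j := by ring
    rw [h1]
    exact Ideal.add_mem _ (mul_mem_pw I (pw_mem I 2 (n i) _ (ha i)) ih (by rw [mul_add]; omega))
      (mul_mem_pw I (pw_sub_mem I (n i) _ _ (ha i) (hb i) (hab i)) (prod_pw_mem I s b n 2 hb)
        (by rw [mul_add]; omega))

variable {k : Type} [Field k] [Algebra k A]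

theorem aeval_pw_mem {ι : Type} [Fintype ι] (a : ι → A) (r e : ℕ) (ha : ∀ i, a i ∈ I ^ r)
    (Q : MvPolynomial ι k) (hQ : ∀ n ∈ Q.support, e ≤ ∑ i, n i) : aeval a Q ∈ I ^ (r * e) := by
  rw [aeval_def, eval₂_eq']
  refine Ideal.sum_mem _ fun n hn => ?_
  refine Ideal.mul_mem_left _ _ ?_
  exact Ideal.pow_le_pow_right (Nat.mul_le_mul_left r (hQ n hn))
    (prod_pw_mem I Finset.univ a n r ha)

theorem aeval_sub_mem {ι : Type} [Fintype ι] (a b : ι → A) (e : ℕ)
    (ha : ∀ i, a i ∈ I ^ 2) (hb : ∀ i, b i ∈ I ^ 2) (hab : ∀ i, a i - b i ∈ I ^ 3)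
    (Q : MvPolynomial ι k) (hQ : ∀ n ∈ Q.support, e ≤ ∑ i, n i) :
    aeval a Q - aeval b Q ∈ I ^ (2 * e + 1) := by
  rw [aeval_def, eval₂_eq', aeval_def, eval₂_eq', ← Finset.sum_sub_distrib]
  refine Ideal.sum_mem _ fun n hn => ?_
  rw [← mul_sub]
  refine Ideal.mul_mem_left _ _ ?_
  have h1 := hQ n hn
  exact Ideal.pow_le_pow_right (by omega) (prod_sub_mem I Finset.univ a b n ha hb hab)

end ideals

/-- the degrees of the monomials of a homogeneous polynomial -/
theorem hom_deg {k ι : Type} [Field k] [Fintype ι] {e : ℕ} {Q : MvPolynomial ι k}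
    (hQ : Q.IsHomogeneous e) : ∀ n ∈ Q.support, e ≤ ∑ i, n i := by
  intro n hn
  have h1 := hQ (mem_support_iff.1 hn)
  rw [← Finsupp.degree_eq_sum n, Finsupp.degree_eq_weight_one]
  exact h1.ge

/-- lowest form of a nonzero polynomial -/
theorem low_form {k ι : Type} [Field k] [Fintype ι] (Q : MvPolynomial ι k) (hQ : Q ≠ 0) :
    ∃ (e : ℕ) (F : MvPolynomial ι k), F.IsHomogeneous e ∧ F ≠ 0 ∧
      ∀ n ∈ (Q - F).support, e + 1 ≤ ∑ i, n i := by
  classical
  have hex : ∃ e : ℕ, homogeneousComponent e Q ≠ 0 := by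
    by_contra hcon
    push Not at hcon
    apply hQ
    ext n
    have h1 := congrArg (coeff n) (hcon n.degree)
    rw [coeff_homogeneousComponent, if_pos rfl] at h1
    exact h1
  refine ⟨Nat.find hex, homogeneousComponent (Nat.find hex) Q, homogeneousComponent_isHomogeneous _ _,
    Nat.find_spec hex, ?_⟩
  intro n hn
  rw [mem_support_iff, coeff_sub, coeff_homogeneousComponent] at hn
  rw [← Finsupp.degree_eq_sum n]
  by_contra hlt
  rcases Nat.lt_or_ge n.degree (Nat.find hex) with h1 | h1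
  · have h2 := Nat.find_min hex h1
    rw [not_not] at h2
    have h3 := congrArg (coeff n) h2
    rw [coeff_homogeneousComponent, if_pos rfl, coeff_zero] at h3
    rw [if_neg (by omega), sub_zero] at hn
    exact hn h3
  · rw [if_pos (by omega), sub_self] at hn
    exact hn rfl

/-- no invariant polynomial in H is divisible by a semi-invariant -/
theorem pf_ZZR (hZLF : T_ZLF) (hZHQ : T_ZHQ) (hZFC : T_ZFC) : T_ZZR := by
  intro k _ _ m d W y w H hW hA hc hE hsp χ p Q hχ hp hpW hdvd
  by_contra hQ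
  obtain ⟨z1, z2⟩ := hZLF k m (Fin d → ℤ) W y w hW hA
  obtain ⟨e, F, hFh, hF0, hFQ⟩ := low_form Q hQ
  obtain ⟨N, P, hPh, hP0, hPp, hPs⟩ := z2 p hp
  -- the linear forms
  let L : Fin d → Pol k m := fun t => -∑ i, C ((w i t : ℤ) : k) *
    (X (Sum.inl i) * X (Sum.inr i) : Pol k m)
  have hLh : ∀ t, (L t).IsHomogeneous 2 := by
    intro t
    refine IsHomogeneous.neg (IsHomogeneous.sum _ _ _ fun i _ => ?_)
    exact IsHomogeneous.C_mul ((isHomogeneous_X k _).mul (isHomogeneous_X k _)) _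
  have hy : ∀ s, y s ∈ (mo k m) ^ 1 := by
    intro s
    rw [pow_one, RingHom.mem_ker]
    exact hA.hz s
  have hL2 : ∀ t, aeval y (L t) ∈ (mo k m) ^ 2 := by
    intro t
    have := aeval_pw_mem (mo k m) y 1 2 hy (L t) (hom_deg (hLh t))
    rwa [one_mul] at this
  have hH3 : ∀ t, H t - aeval y (L t) ∈ (mo k m) ^ 3 := by
    intro t
    have h1 := hZHQ k m (Fin d → ℤ) W y w
      ((Int.castAddHom k).comp (Pi.evalAddMonoidHom (fun _ : Fin d => ℤ) t)) (H t) hW hA (hc t)
      (fun χ g hg => hE t χ g hg)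
    have h2 : aeval y (L t) = -∑ i, ((w i t : ℤ) : k) • (y (Sum.inl i) * y (Sum.inr i)) := by
      simp only [L]
      rw [map_neg, map_sum]
      refine congrArg _ (Finset.sum_congr rfl fun i _ => ?_)
      rw [map_mul, map_mul, aeval_X, aeval_X, aeval_C, Algebra.smul_def]
    rw [h2, sub_neg_eq_add]
    exact h1
  have hH2 : ∀ t, H t ∈ (mo k m) ^ 2 := by
    intro t
    have h1 : H t = (H t - aeval y (L t)) + aeval y (L t) := by ring
    rw [h1]
    exact Ideal.add_mem _ (Ideal.pow_le_pow_right (by norm_num) (hH3 t)) (hL2 t)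
  -- the lowest form of aeval H Q
  have hG : aeval H Q - aeval y (aeval L F) ∈ (mo k m) ^ (2 * e + 1) := by
    have h1 : aeval y (aeval L F) = aeval (fun t => aeval y (L t)) F := by
      rw [← comp_aeval_apply]
    have h2 : aeval H Q - aeval y (aeval L F) = aeval H (Q - F) +
        (aeval H F - aeval (fun t => aeval y (L t)) F) := by
      rw [h1, map_sub]; ring
    rw [h2]
    refine Ideal.add_mem _ ?_ (aeval_sub_mem (mo k m) H _ e hH2 hL2 hH3 F (hom_deg hFh))
    exact Ideal.pow_le_pow_right (by omega) (aeval_pw_mem (mo k m) H 2 (e + 1) hH2 (Q - F) hFQ)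
  have hGh : (aeval L F).IsHomogeneous (2 * e) := hFh.aeval L hLh
  have hfin : P ∣ aeval L F → False := fun h0 =>
    hF0 (hZFC k m d w P F χ hsp hχ hP0 (hPs χ hpW) h0)
  apply hfin
  obtain ⟨r, hr⟩ := hdvd
  by_cases hr0 : r = 0
  · rw [hr0, mul_zero] at hr
    rw [hr, zero_sub, Ideal.neg_mem_iff] at hG
    rw [z1 _ _ hGh hG]
    exact dvd_zero _
  · obtain ⟨N', P', hPh', hP0', hPp', _⟩ := z2 r hr0
    have hyP : aeval y P ∈ (mo k m) ^ N := by
      have := aeval_pw_mem (mo k m) y 1 N hy P (hom_deg hPh)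
      rwa [one_mul] at this
    have hyP' : aeval y P' ∈ (mo k m) ^ N' := by
      have := aeval_pw_mem (mo k m) y 1 N' hy P' (hom_deg hPh')
      rwa [one_mul] at this
    have hpN : p ∈ (mo k m) ^ N := by
      have h1 : p = (p - aeval y P) + aeval y P := by ring
      rw [h1]
      exact Ideal.add_mem _ (Ideal.pow_le_pow_right (by omega) hPp) hyP
    have hPPh : (P * P').IsHomogeneous (N + N') := hPh.mul hPh'
    have hPP0 : P * P' ≠ 0 := mul_ne_zero hP0 hP0'
    have hpr : p * r - aeval y (P * P') ∈ (mo k m) ^ (N + N' + 1) := by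
      have h1 : p * r - aeval y (P * P') = p * (r - aeval y P') + (p - aeval y P) * aeval y P' := by
        rw [map_mul]; ring
      rw [h1]
      exact Ideal.add_mem _ (mul_mem_pw _ hpN hPp' (by omega)) (mul_mem_pw _ hPp hyP' (by omega))
    rw [← hr] at hpr
    rcases lt_trichotomy (N + N') (2 * e) with hlt | heq | hgt
    · exfalso
      apply hPP0
      refine z1 _ _ hPPh ?_
      have hyG : aeval y (aeval L F) ∈ (mo k m) ^ (2 * e) := by
        have := aeval_pw_mem (mo k m) y 1 (2 * e) hy _ (hom_deg hGh)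
        rwa [one_mul] at this
      have h1 : aeval y (P * P') = (aeval H Q - aeval y (aeval L F)) -
          (aeval H Q - aeval y (P * P')) + aeval y (aeval L F) := by ring
      rw [h1]
      exact Ideal.add_mem _ (Ideal.sub_mem _ (Ideal.pow_le_pow_right (by omega) hG) hpr)
        (Ideal.pow_le_pow_right (by omega) hyG)
    · have h1 : P * P' - aeval L F = 0 := by
        refine z1 (2 * e) _ ?_ ?_
        · exact (heq ▸ hPPh : (P * P').IsHomogeneous (2 * e)).sub hGh
        · have h2 : aeval y (P * P' - aeval L F) = (aeval H Q - aeval y (aeval L F)) -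
            (aeval H Q - aeval y (P * P')) := by rw [map_sub]; ring
          rw [h2]
          exact Ideal.sub_mem _ hG (Ideal.pow_le_pow_right (by omega) hpr)
      rw [← sub_eq_zero.1 h1]
      exact dvd_mul_right _ _
    · have hyPP : aeval y (P * P') ∈ (mo k m) ^ (N + N') := by
        have := aeval_pw_mem (mo k m) y 1 (N + N') hy _ (hom_deg hPPh)
        rwa [one_mul] at this
      have h1 : aeval L F = 0 := by
        refine z1 _ _ hGh ?_
        have h2 : aeval y (aeval L F) = (aeval H Q - aeval y (P * P')) -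
            (aeval H Q - aeval y (aeval L F)) + aeval y (P * P') := by ring
        rw [h2]
        exact Ideal.add_mem _ (Ideal.sub_mem _ (Ideal.pow_le_pow_right (by omega) hpr) hG)
          (Ideal.pow_le_pow_right (by omega) hyPP)
      rw [h1]
      exact dvd_zero _

end Pool.Agent.H25.TG
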